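import Pool.Agent.Lib.MP_961271_an.Teeth

/-!
Thin convex cones in every dimension `d ≥ 2`.
-/

open MeasureTheory Set Filter Topology
open scoped ENNReal Pointwise

namespace Pool.Agent.Lib.MP_961271_an.SH

open Pool.Agent.Lib.MP_961271_an

variable {m : ℕ}

/-- The truncated cone `0 < x_0 < R`, `|x_i| < a x_0`. -/
def cone (m : ℕ) (a R : ℝ) : Set (Fin (m + 1) → ℝ) :=
  {x | 0 < x 0 ∧ x 0 < R ∧ ∀ i : Fin m, |x i.succ| < a * x 0}

theorem cone_open (a R : ℝ) : IsOpen (cone m a R) := by
  have h : cone m a R = {x | 0 < x 0} ∩ ({x | x 0 < R} ∩ ⋂ i : Fin m, {x | |x i.succ| < a * x 0}) := by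
    ext x; simp [cone]
  rw [h]
  refine (isOpen_lt continuous_const (continuous_apply 0)).inter
    ((isOpen_lt (continuous_apply 0) continuous_const).inter (isOpen_iInter_of_finite fun i => ?_))
  exact isOpen_lt (by fun_prop) (by fun_prop)

theorem cone_convex (a R : ℝ) : Convex ℝ (cone m a R) := by
  intro x hx y hy s t hs ht hst
  refine ⟨?_, ?_, fun i => ?_⟩
  · simp only [Pi.add_apply, Pi.smul_apply, smul_eq_mul]
    rcases hs.eq_or_lt with h | h
    · have : t = 1 := by linarith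
      subst h; subst this; simpa using hy.1
    · nlinarith [mul_pos h hx.1, mul_nonneg ht hy.1.le]
  · simp only [Pi.add_apply, Pi.smul_apply, smul_eq_mul]
    rcases hs.eq_or_lt with h | h
    · have : t = 1 := by linarith
      subst h; subst this; simpa using hy.2.1
    · calc s * x 0 + t * y 0 < s * R + t * R :=
            add_lt_add_of_lt_of_le (mul_lt_mul_of_pos_left hx.2.1 h)
              (mul_le_mul_of_nonneg_left hy.2.1.le ht)
        _ = (s + t) * R := by ring
        _ = R := by rw [hst, one_mul]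
  · simp only [Pi.add_apply, Pi.smul_apply, smul_eq_mul]
    have h1 := hx.2.2 i
    have h2 := hy.2.2 i
    have h3 : |s * x i.succ + t * y i.succ| ≤ s * |x i.succ| + t * |y i.succ| := by
      refine (abs_add_le _ _).trans ?_
      rw [abs_mul, abs_mul, abs_of_nonneg hs, abs_of_nonneg ht]
    rcases hs.eq_or_lt with h | h
    · have : t = 1 := by linarith
      subst h; subst this; simpa using h2
    · nlinarith [mul_lt_mul_of_pos_left h1 h, mul_le_mul_of_nonneg_left h2.le ht]

theorem cone_nonempty {a R : ℝ} (ha : 0 < a) (hR : 0 < R) : (cone m a R).Nonempty := by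
  refine ⟨Fin.cons (R / 2) fun _ => 0, ?_, ?_, fun i => ?_⟩
  · simp only [Fin.cons_zero]; positivity
  · simp only [Fin.cons_zero]; linarith
  · simp only [Fin.cons_zero, Fin.cons_succ, abs_zero]; positivity

theorem cone_bounded {a R : ℝ} (ha : 0 < a) (hR : 0 < R) : Bornology.IsBounded (cone m a R) := by
  rw [Metric.isBounded_iff_subset_closedBall 0]
  refine ⟨max R (a * R), fun x hx => ?_⟩
  rw [mem_closedBall_zero_iff, pi_norm_le_iff_of_nonneg (le_max_of_le_left hR.le)]
  intro i
  refine Fin.cases ?_ (fun j => ?_) i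
  · rw [Real.norm_eq_abs, abs_of_pos hx.1]
    exact le_max_of_le_left hx.2.1.le
  · rw [Real.norm_eq_abs]
    refine le_max_of_le_right ((hx.2.2 j).le.trans ?_)
    exact mul_le_mul_of_nonneg_left hx.2.1.le ha.le

theorem cone_admissible {a R : ℝ} (ha : 0 < a) (hR : 0 < R) : Admissible (cone m a R) :=
  admissible_of_convex (by omega) (cone_nonempty ha hR) (cone_open a R) (cone_bounded ha hR)
    (cone_convex a R)

theorem cone_smul {a R r : ℝ} (hr : 0 < r) : cone m a (r * R) = r • cone m a R := by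
  ext x
  rw [Set.mem_smul_set_iff_inv_smul_mem₀ hr.ne']
  have hr' : 0 < r⁻¹ := inv_pos.2 hr
  simp only [cone, Set.mem_ofPred_eq, Pi.smul_apply, smul_eq_mul, abs_mul, abs_of_pos hr']
  constructor
  · rintro ⟨h1, h2, h3⟩
    refine ⟨mul_pos hr' h1, ?_, fun i => ?_⟩
    · rw [inv_mul_lt_iff₀ hr]; exact h2
    · calc r⁻¹ * |x i.succ| < r⁻¹ * (a * x 0) := mul_lt_mul_of_pos_left (h3 i) hr'
        _ = a * (r⁻¹ * x 0) := by ring
  · rintro ⟨h1, h2, h3⟩
    refine ⟨pos_of_mul_pos_right h1 hr'.le, ?_, fun i => ?_⟩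
    · rwa [inv_mul_lt_iff₀ hr] at h2
    · have h4 : r⁻¹ * |x i.succ| < r⁻¹ * (a * x 0) := by
        calc _ < a * (r⁻¹ * x 0) := h3 i
          _ = _ := by ring
      exact lt_of_mul_lt_mul_left h4 hr'.le

theorem volume_cone {a R : ℝ} (hR : 0 < R) :
    volume (cone m a R) = ENNReal.ofReal (R ^ (m + 1)) * volume (cone m a 1) := by
  have h := cone_smul (m := m) (a := a) (R := 1) hR
  rw [mul_one] at h
  rw [h, Measure.addHaar_smul, Module.finrank_fintype_fun_eq_card, Fintype.card_fin,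
    abs_of_pos (by positivity)]

theorem cone_inter {a R r : ℝ} (hr : r ≤ R) : cone m a R ∩ {x | x 0 < r} = cone m a r := by
  ext x
  constructor
  · rintro ⟨⟨h1, h2, h3⟩, h4⟩
    exact ⟨h1, h4, h3⟩
  · rintro ⟨h1, h2, h3⟩
    exact ⟨⟨h1, h2.trans_le hr, h3⟩, h2⟩

theorem volume_cone_one_le {a : ℝ} (ha : 0 < a) (ha1 : 2 * a ≤ 1) :
    volume (cone (m + 1) a 1) ≤ ENNReal.ofReal (2 * a) := by
  have hsub : cone (m + 1) a 1 ⊆ Set.univ.pi
      (fun i : Fin (m + 2) => Fin.cases (motive := fun _ => Set ℝ) (Ioo 0 1) (fun _ => Ioo (-a) a) i) := by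
    intro x hx i _
    refine Fin.cases ?_ (fun j => ?_) i
    · exact ⟨hx.1, hx.2.1⟩
    · have h1 := hx.2.2 j
      have h2 : a * x 0 < a := by nlinarith [hx.2.1]
      exact abs_lt.1 (h1.trans h2)
  refine (measure_mono hsub).trans ?_
  rw [volume_pi, Measure.pi_pi, Fin.prod_univ_succ]
  simp only [Fin.cases_zero, Fin.cases_succ, Real.volume_Ioo, Finset.prod_const, Finset.card_univ,
    Fintype.card_fin, sub_zero, ENNReal.ofReal_one, one_mul]
  rw [show a - -a = 2 * a by ring, ← ENNReal.ofReal_pow (by positivity)]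
  apply ENNReal.ofReal_le_ofReal
  calc (2 * a) ^ (m + 1) ≤ (2 * a) ^ 1 := pow_le_pow_of_le_one (by positivity) ha1 (by omega)
    _ = 2 * a := pow_one _

end Pool.Agent.Lib.MP_961271_an.SH
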