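import Pool.Agent.Lib.MP_961271_an.SH.Weak
import Pool.Agent.Lib.MP_961271_an.SH.Cone

/-!
A bump at the vertex of the cone in the unit ball of `W_p^s`.
-/

open MeasureTheory Set Filter Topology
open scoped ENNReal

namespace Pool.Agent.Lib.MP_961271_an.SH

open Pool.Agent.Lib.MP_961271_an

variable {m : ℕ}

/-- A smooth cut-off function: `1` for `t ≤ 1/2`, `0` for `3/4 ≤ t`. -/
noncomputable def H0 (t : ℝ) : ℝ := Real.smoothTransition (3 - 4 * t)

theorem H0_smooth : ContDiff ℝ ((⊤ : ℕ∞) : WithTop ℕ∞) H0 := by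
  unfold H0
  exact Real.smoothTransition.contDiff.comp (by fun_prop)

theorem H0_one {t : ℝ} (ht : t ≤ 1 / 2) : H0 t = 1 :=
  Real.smoothTransition.one_of_one_le (by linarith)

theorem H0_zero {t : ℝ} (ht : 3 / 4 ≤ t) : H0 t = 0 :=
  Real.smoothTransition.zero_of_nonpos (by linarith)

theorem H0_nonneg (t : ℝ) : 0 ≤ H0 t := Real.smoothTransition.nonneg _

theorem iter_zero (k : ℕ) : ∀ t : ℝ, 3 / 4 < t → deriv^[k] H0 t = 0 := by
  induction k with
  | zero => intro t ht; exact H0_zero ht.le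
  | succ k ih =>
    intro t ht
    rw [Function.iterate_succ_apply']
    have : deriv^[k] H0 =ᶠ[𝓝 t] fun _ => 0 := by
      filter_upwards [Ioi_mem_nhds ht] with s hs using ih s hs
    rw [this.deriv_eq]
    simp

theorem iter_bound (s : ℕ) : ∃ M : ℝ, 0 < M ∧ ∀ k ≤ s, ∀ t ∈ Icc (0 : ℝ) 1, |deriv^[k] H0 t| ≤ M := by
  induction s with
  | zero =>
    obtain ⟨C, hC⟩ := isCompact_Icc.exists_bound_of_continuousOn
      (H0_smooth.continuous.continuousOn (s := Icc (0 : ℝ) 1))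
    refine ⟨max C 1, by positivity, fun k hk t ht => ?_⟩
    obtain rfl : k = 0 := by omega
    exact (hC t ht).trans (le_max_left _ _)
  | succ s ih =>
    obtain ⟨M, hM, h⟩ := ih
    obtain ⟨C, hC⟩ := isCompact_Icc.exists_bound_of_continuousOn
      ((iter_deriv_smooth H0_smooth (s + 1)).continuous.continuousOn (s := Icc (0 : ℝ) 1))
    refine ⟨max C M, by positivity, fun k hk t ht => ?_⟩
    rcases Nat.lt_or_ge s k with h1 | h1
    · obtain rfl : k = s + 1 := by omega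
      exact (hC t ht).trans (le_max_left _ _)
    · exact (h k h1 t ht).trans (le_max_right _ _)

theorem iter_scale {H : ℝ → ℝ} (hH : ContDiff ℝ ((⊤ : ℕ∞) : WithTop ℕ∞) H) (c b : ℝ) (k : ℕ) :
    deriv^[k] (fun t => c * H (b * t)) = fun t => c * b ^ k * deriv^[k] H (b * t) := by
  induction k with
  | zero => funext t; simp
  | succ k ih =>
    rw [Function.iterate_succ_apply', ih]
    funext t
    have h1 : HasDerivAt (deriv^[k] H) (deriv (deriv^[k] H) (b * t)) (b * t) :=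
      (((iter_deriv_smooth hH k).differentiable (by simp)) _).hasDerivAt
    have h2 : HasDerivAt (fun t => b * t) b t := by simpa using (hasDerivAt_id t).const_mul b
    have h3 := (h1.comp t h2).const_mul (c * b ^ k)
    rw [Function.iterate_succ_apply']
    refine (HasDerivAt.deriv h3).trans ?_
    ring

/-- The scaled bump. -/
noncomputable def bump (c r : ℝ) : ℝ → ℝ := fun t => c * H0 (r⁻¹ * t)

theorem bump_smooth (c r : ℝ) : ContDiff ℝ ((⊤ : ℕ∞) : WithTop ℕ∞) (bump c r) := by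
  unfold bump
  exact contDiff_const.mul (H0_smooth.comp (by fun_prop))

theorem gFst_bound {s : ℕ} {M : ℝ} (hM : 0 < M)
    (hb : ∀ k ≤ s, ∀ t ∈ Icc (0 : ℝ) 1, |deriv^[k] H0 t| ≤ M) {a R r c : ℝ} (hr : 0 < r)
    (hr1 : r ≤ 1) (hc : 0 ≤ c) {α : Fin (m + 1) → ℕ} (hα : α 0 ≤ s) {x : Fin (m + 1) → ℝ}
    (hx : x ∈ cone m a R) :
    |gFst (bump c r) α x| ≤ (cone m a r).indicator (fun _ => c * M * r⁻¹ ^ s) x := by
  have hB : 0 ≤ c * M * r⁻¹ ^ s := by positivity
  have h0 : (0 : ℝ) ≤ (cone m a r).indicator (fun _ => c * M * r⁻¹ ^ s) x :=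
    indicator_nonneg (fun _ _ => hB) x
  unfold gFst
  split_ifs with h
  · unfold ofFst bump
    rw [iter_scale H0_smooth]
    by_cases hxr : x 0 < r
    · rw [indicator_of_mem (show x ∈ cone m a r from ⟨hx.1, hxr, hx.2.2⟩)]
      have ht : r⁻¹ * x 0 ∈ Icc (0 : ℝ) 1 := by
        constructor
        · exact mul_nonneg (inv_nonneg.2 hr.le) hx.1.le
        · rw [inv_mul_le_iff₀ hr]; linarith
      have h1 := hb _ hα _ ht
      have h2 : r⁻¹ ^ α 0 ≤ r⁻¹ ^ s := pow_le_pow_right₀ (one_le_inv_iff₀.2 ⟨hr, hr1⟩) hα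
      rw [abs_mul, abs_mul, abs_of_nonneg hc, abs_of_nonneg (by positivity : 0 ≤ r⁻¹ ^ α 0)]
      calc c * r⁻¹ ^ α 0 * |deriv^[α 0] H0 (r⁻¹ * x 0)| ≤ c * r⁻¹ ^ s * M := by gcongr
        _ = c * M * r⁻¹ ^ s := by ring
    · have ht : 3 / 4 < r⁻¹ * x 0 := by
        rw [lt_inv_mul_iff₀ hr]
        nlinarith [not_lt.1 hxr]
      show |c * r⁻¹ ^ α 0 * deriv^[α 0] H0 (r⁻¹ * x 0)| ≤ _
      rw [iter_zero _ _ ht, mul_zero, abs_zero]
      exact h0
  · simpa using h0

theorem gFst_eLpNorm {s : ℕ} {M : ℝ} (hM : 0 < M)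
    (hb : ∀ k ≤ s, ∀ t ∈ Icc (0 : ℝ) 1, |deriv^[k] H0 t| ≤ M) {a R r c : ℝ} (hr : 0 < r)
    (hr1 : r ≤ 1) (hrR : r ≤ R) (hc : 0 ≤ c) {α : Fin (m + 1) → ℕ} (hα : α 0 ≤ s) {p : ℝ≥0∞}
    (hp0 : p ≠ 0) (hpt : p ≠ ∞) :
    eLpNorm (gFst (bump c r) α) p (volume.restrict (cone m a R)) ≤
      ENNReal.ofReal (c * M * r⁻¹ ^ s) * volume (cone m a r) ^ (1 / p.toReal) := by
  have h1 : eLpNorm (gFst (bump c r) α) p (volume.restrict (cone m a R)) ≤
      eLpNorm ((cone m a r).indicator (fun _ => c * M * r⁻¹ ^ s)) p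
        (volume.restrict (cone m a R)) := by
    refine eLpNorm_mono_ae_real ?_
    refine (ae_restrict_iff' (cone_open a R).measurableSet).2 (Eventually.of_forall fun x hx => ?_)
    rw [Real.norm_eq_abs]
    exact gFst_bound hM hb hr hr1 hc hα hx
  refine h1.trans ?_
  rw [eLpNorm_indicator_const (cone_open a r).measurableSet hp0 hpt,
    Measure.restrict_apply (cone_open a r).measurableSet,
    inter_eq_left.2 (show cone m a r ⊆ cone m a R from fun x hx => ⟨hx.1, hx.2.1.trans_le hrR, hx.2.2⟩),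
    Real.enorm_eq_ofReal (by positivity)]

theorem mem_ball {s : ℕ} {M : ℝ} (hM : 0 < M)
    (hb : ∀ k ≤ s, ∀ t ∈ Icc (0 : ℝ) 1, |deriv^[k] H0 t| ≤ M) {a R r c : ℝ} (ha : 0 < a)
    (_hR : 0 < R) (hr : 0 < r) (hr1 : r ≤ 1) (hrR : r ≤ R) (hc : 0 ≤ c) {p : ℝ≥0∞}
    (hp1 : 1 ≤ p) (hpt : p ≠ ∞)
    (hle : ((multiIdx (m + 1) s).card : ℝ≥0∞) *
      (ENNReal.ofReal (c * M * r⁻¹ ^ s) * volume (cone m a r) ^ (1 / p.toReal)) ≤ 1) :
    ofFst (bump c r) ∈ UnitBall (cone m a R) s p := by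
  have hp0 : p ≠ 0 := (zero_lt_one.trans_le hp1).ne'
  have hP1 : 1 ≤ p.toReal := by
    rw [← ENNReal.toReal_one]
    exact ENNReal.toReal_mono hpt hp1
  have hP0 : 0 < p.toReal := by linarith
  have hα0 : ∀ α ∈ multiIdx (m + 1) s, α 0 ≤ s := by
    intro α hα
    have h1 : ∑ i, α i ≤ s := (Finset.mem_filter.1 hα).2
    exact (Finset.single_le_sum (fun i _ => Nat.zero_le (α i)) (Finset.mem_univ 0)).trans h1
  set b : ℝ≥0∞ := ENNReal.ofReal (c * M * r⁻¹ ^ s) * volume (cone m a r) ^ (1 / p.toReal) with hbd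
  have hV : volume (cone m a r) ≠ ∞ := (cone_bounded ha hr).measure_lt_top.ne
  have hbt : b ≠ ∞ := by
    refine ENNReal.mul_ne_top ENNReal.ofReal_ne_top ?_
    exact ENNReal.rpow_ne_top_of_nonneg (by positivity) hV
  have hn : ∀ α ∈ multiIdx (m + 1) s,
      eLpNorm (gFst (bump c r) α) p (volume.restrict (cone m a R)) ≤ b := fun α hα =>
    gFst_eLpNorm hM hb hr hr1 hrR hc (hα0 α hα) hp0 hpt
  refine ⟨(ofFst_smooth (bump_smooth c r)).continuous.continuousOn, gFst (bump c r), gFst_zero _,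
    fun α hα => ⟨⟨?_, (hn α hα).trans_lt (lt_top_iff_ne_top.2 hbt)⟩,
      isWeakDeriv_gFst (bump_smooth c r) α⟩, ?_⟩
  · unfold gFst
    split_ifs
    · exact (ofFst_smooth (iter_deriv_smooth (bump_smooth c r) _)).continuous.aestronglyMeasurable
    · exact aestronglyMeasurable_const
  · unfold sobNorm
    rw [if_neg hpt]
    have hcard : 1 ≤ ((multiIdx (m + 1) s).card : ℝ≥0∞) := by
      have : 0 < (multiIdx (m + 1) s).card := Finset.card_pos.2 ⟨0, multiIdx_zero_mem _ _⟩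
      exact_mod_cast this
    calc (∑ α ∈ multiIdx (m + 1) s,
          eLpNorm (gFst (bump c r) α) p (volume.restrict (cone m a R)) ^ p.toReal) ^ (1 / p.toReal)
        ≤ (∑ α ∈ multiIdx (m + 1) s, b ^ p.toReal) ^ (1 / p.toReal) := by
          refine ENNReal.rpow_le_rpow (Finset.sum_le_sum fun α hα => ?_) (by positivity)
          exact ENNReal.rpow_le_rpow (hn α hα) hP0.le
      _ = (((multiIdx (m + 1) s).card : ℝ≥0∞) * b ^ p.toReal) ^ (1 / p.toReal) := by
          rw [Finset.sum_const, nsmul_eq_mul]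
      _ ≤ ((((multiIdx (m + 1) s).card : ℝ≥0∞) * b) ^ p.toReal) ^ (1 / p.toReal) := by
          refine ENNReal.rpow_le_rpow ?_ (by positivity)
          have h5 : ((multiIdx (m + 1) s).card : ℝ≥0∞) ≤
              ((multiIdx (m + 1) s).card : ℝ≥0∞) ^ p.toReal := by
            calc ((multiIdx (m + 1) s).card : ℝ≥0∞)
                = ((multiIdx (m + 1) s).card : ℝ≥0∞) ^ (1 : ℝ) := by rw [ENNReal.rpow_one]
              _ ≤ _ := ENNReal.rpow_le_rpow_of_exponent_le hcard hP1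
          exact (mul_le_mul' h5 (le_refl (b ^ p.toReal))).trans
            (ENNReal.mul_rpow_of_nonneg _ b hP0.le).symm.le
      _ = ((multiIdx (m + 1) s).card : ℝ≥0∞) * b := by
          rw [← ENNReal.rpow_mul, mul_one_div_cancel hP0.ne', ENNReal.rpow_one]
      _ ≤ 1 := hle

end Pool.Agent.Lib.MP_961271_an.SH
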