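import Pool.Agent.Lib.MP_961271_an.Defs

/-!
Consequences of large lower limits of the normalised minimal errors.
-/

open MeasureTheory Set Filter Topology
open scoped ENNReal NNReal

namespace Pool.Agent.Lib.MP_961271_an.SH

/-- There are convex admissible domains of volume one with arbitrarily large lower limit of the
normalised minimal errors. -/
def Unbounded (d s : ℕ) (p q : ℝ≥0∞) : Prop :=
  ∀ M : ℝ≥0, ∃ D : Set (Fin d → ℝ), Convex ℝ D ∧ Admissible D ∧ volume D = 1 ∧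
    (M : ℝ≥0∞) ≤ liminf (normErr Crit.ran D s p q) atTop

theorem no_common_limit {d s : ℕ} {p q : ℝ≥0∞} (h : Unbounded d s p q) :
    ¬ ∃ c : ℝ≥0, ∀ D : Set (Fin d → ℝ), Convex ℝ D → Admissible D → volume D = 1 →
      Tendsto (normErr Crit.ran D s p q) atTop (𝓝 (c : ℝ≥0∞)) := by
  rintro ⟨c, hc⟩
  obtain ⟨D, h1, h2, h3, h4⟩ := h (c + 1)
  have h5 := (hc D h1 h2 h3).liminf_eq
  rw [h5] at h4
  have h6 : c + 1 ≤ c := by exact_mod_cast h4
  exact absurd h6 (not_le.2 (lt_add_one c))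

theorem ratio_unbounded {d s : ℕ} {p q : ℝ≥0∞} (h : Unbounded d s p q) (D₀ : Set (Fin d → ℝ))
    (h0 : limsup (normErr Crit.ran D₀ s p q) atTop ≠ ∞) (M : ℝ≥0) :
    ∃ D : Set (Fin d → ℝ), Convex ℝ D ∧ Admissible D ∧ volume D = 1 ∧
      M * limsup (normErr Crit.ran D₀ s p q) atTop < liminf (normErr Crit.ran D s p q) atTop := by
  obtain ⟨D, h1, h2, h3, h4⟩ :=
    h (M * (limsup (normErr Crit.ran D₀ s p q) atTop).toNNReal + 1)
  refine ⟨D, h1, h2, h3, lt_of_lt_of_le ?_ h4⟩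
  rw [ENNReal.coe_add, ENNReal.coe_mul, ENNReal.coe_toNNReal h0, ENNReal.coe_one]
  exact ENNReal.lt_add_right (ENNReal.mul_ne_top ENNReal.coe_ne_top h0) one_ne_zero

end Pool.Agent.Lib.MP_961271_an.SH
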