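import Pool.Agent.Lib.MP_961271_an.UpperTeeth

/-!
The normalised minimal errors of the unit square are bounded for `d = 2`, `s = 1`, `p = q = 4`.
-/

open MeasureTheory Set Filter Topology
open scoped ENNReal NNReal

namespace Pool.Agent.Lib.MP_961271_an.SH

theorem unitSq_sees : SeesBox (Sq 0 1) (1 / 8) := by
  intro x hx
  have hx' : ∀ i, 0 < x i ∧ x i < 1 := by
    intro i
    have h := hx i (mem_univ i)
    simp only [Pi.zero_apply, zero_add, mem_Ioo] at h
    exact h
  refine ⟨fun i => if x i ≤ 1 / 2 then 1 / 4 else -(1 / 4), ?_, ?_, ?_⟩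
  · intro i
    simp only
    split_ifs <;> norm_num [abs_le]
  · simp only
    split_ifs <;> norm_num [abs_of_pos, abs_neg]
  · intro w hw t ht
    intro i _
    have h1 := hx' i
    have h2 := abs_le.1 (hw i)
    have ht0 : 0 < t := ht.1
    have ht1 : t ≤ 1 := ht.2
    simp only [Pi.add_apply, Pi.smul_apply, smul_eq_mul, Pi.zero_apply, zero_add, mem_Ioo]
    split_ifs with h3
    · have e1 : 0 ≤ t * (1 / 4 + w i) := mul_nonneg ht0.le (by linarith)
      have e2 : t * (1 / 4 + w i) ≤ 1 * (3 / 8) :=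
        mul_le_mul ht1 (by linarith) (by linarith) (by norm_num)
      constructor <;> linarith
    · push Not at h3
      have e1 : 0 ≤ t * (1 / 4 - w i) := mul_nonneg ht0.le (by linarith)
      have e2 : t * (1 / 4 - w i) ≤ 1 * (3 / 8) :=
        mul_le_mul ht1 (by linarith) (by linarith) (by norm_num)
      have e3 : t * (-(1 / 4) + w i) = -(t * (1 / 4 - w i)) := by ring
      rw [e3]
      constructor <;> linarith

theorem unitSq_volume : volume (Sq 0 1) = 1 := by
  rw [volume_sq 0 zero_le_one]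
  simp

theorem unitSq_convex : Convex ℝ (Sq 0 1) := convex_pi fun _ _ => convex_Ioo _ _

theorem unitSq_admissible : Admissible (Sq 0 1) := by
  refine ⟨⟨fun _ => 1 / 2, ?_⟩, sq_open 0 1, ?_, cone_of_boxes (by norm_num) (by norm_num)
    unitSq_sees⟩
  · intro i _
    simp only [Pi.zero_apply, zero_add, mem_Ioo]
    norm_num
  · exact (isBounded_iff_forall_norm_le).2 ⟨1, fun x hx => by
      rw [pi_norm_le_iff_of_nonneg zero_le_one]
      intro i
      have h := hx i (mem_univ i)
      simp only [Pi.zero_apply, zero_add, mem_Ioo] at h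
      rw [Real.norm_eq_abs, abs_of_pos h.1]
      exact h.2.le⟩

theorem square_upper : ∃ C : ℝ≥0, ∀ᶠ n : ℕ in atTop,
    normErr Crit.ran (Sq 0 1) 1 4 4 n ≤ C := by
  obtain ⟨C₀, hC₀, h⟩ := upper_main
  obtain ⟨K, hK0, hK⟩ := embed_boxes (ρ := 1 / 8) (by norm_num) (by norm_num)
  have hvt : volume (Sq 0 1) ≠ ⊤ := by rw [unitSq_volume]; exact ENNReal.one_ne_top
  have hK' := hK (Sq 0 1) (sq_open 0 1) hvt unitSq_sees
  refine ⟨Real.toNNReal (C₀ ^ (1 / 4 : ℝ)), ?_⟩
  have hexp : ∀ᶠ n : ℕ in atTop, Real.exp (-((n : ℝ) * 1 ^ 2 / 2)) ≤ 1 / (n : ℝ) ^ 2 := by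
    have h1 : Tendsto (fun y : ℝ => y ^ 2 * Real.exp (-y)) atTop (𝓝 0) := by
      have := Real.tendsto_pow_mul_exp_neg_atTop_nhds_zero 2
      exact this
    have h2 : Tendsto (fun n : ℕ => (n : ℝ) / 2) atTop atTop :=
      tendsto_natCast_atTop_atTop.atTop_div_const (by norm_num)
    have h3 := (h1.comp h2).eventually (ge_mem_nhds (show (0 : ℝ) < 1 / 4 by norm_num))
    filter_upwards [h3, eventually_gt_atTop 0] with n hn hn0
    have hn0' : (0 : ℝ) < n := by exact_mod_cast hn0
    simp only [Function.comp_apply] at hn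
    rw [le_div_iff₀ (by positivity)]
    have e : (n : ℝ) * 1 ^ 2 / 2 = n / 2 := by ring
    rw [e]
    have e2 : ((n : ℝ) / 2) ^ 2 * Real.exp (-((n : ℝ) / 2)) =
        (Real.exp (-((n : ℝ) / 2)) * (n : ℝ) ^ 2) / 4 := by ring
    rw [e2] at hn
    linarith
  filter_upwards [hexp, eventually_ge_atTop 1] with n hn hn1
  have hn0 : (0 : ℝ) < n := by exact_mod_cast hn1
  have hn1' : (1 : ℝ) ≤ n := by exact_mod_cast hn1
  have key := h (Sq 0 1) (sq_open 0 1) (by rw [unitSq_volume]; exact one_ne_zero)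
    (by rw [unitSq_volume]; norm_num) K hK0 hK' Unit (fun _ => 0) (fun _ => 1)
    (fun _ => one_pos) (fun _ => le_rfl) (fun i j hij => absurd (Subsingleton.elim i j) hij) n hn1
    (fun _ => by simpa using hn1') (fun _ => hn) (by
      have : (Sq 0 1 \ ⋃ _ : Unit, Sq 0 1) = (∅ : Set (Fin 2 → ℝ)) := by
        rw [iUnion_const, sdiff_self]
      rw [this, measure_empty, mul_zero]
      exact bot_le)
  have hexpo : expo 2 1 4 4 = 1 / 2 := by
    unfold expo
    simp
  unfold normErr
  rw [hexpo]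
  refine (mul_le_mul' key le_rfl).trans (le_of_eq ?_)
  rw [ENNReal.ofReal_rpow_of_nonneg (by positivity) (by norm_num),
    ← ENNReal.ofReal_mul (by positivity)]
  show ENNReal.ofReal _ = ENNReal.ofReal _
  congr 1
  rw [Real.div_rpow hC₀.le (by positivity), ← Real.rpow_natCast, ← Real.rpow_mul hn0.le]
  norm_num
  rw [div_mul_cancel₀]
  positivity

theorem square_limsup : limsup (normErr Crit.ran (Sq 0 1) 1 4 4) atTop ≠ ∞ := by
  obtain ⟨C, hC⟩ := square_upper
  refine ne_top_of_le_ne_top (ENNReal.coe_ne_top (r := C)) ?_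
  exact limsup_le_of_le (by isBoundedDefault) hC

end Pool.Agent.Lib.MP_961271_an.SH
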