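import Pool.Agent.Lib.MP_961271_an.SH.Ball

/-!
Thin convex cones have large normalised errors, for all parameters with `p ≤ q`.
-/

open MeasureTheory Set Filter Topology
open scoped ENNReal NNReal

namespace Pool.Agent.Lib.MP_961271_an.SH

open Pool.Agent.Lib.MP_961271_an

variable {m : ℕ}

theorem volume_cone_pos {a : ℝ} (ha : 0 < a) : 0 < (volume (cone m a 1)).toReal :=
  ENNReal.toReal_pos ((cone_open a 1).measure_pos volume (cone_nonempty ha one_pos)).ne'
    (cone_bounded ha one_pos).measure_lt_top.ne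

theorem volume_cone' {a R : ℝ} (ha : 0 < a) (hR : 0 < R) :
    volume (cone m a R) = ENNReal.ofReal (R ^ (m + 1) * (volume (cone m a 1)).toReal) := by
  rw [volume_cone hR, ENNReal.ofReal_mul (by positivity),
    ENNReal.ofReal_toReal (cone_bounded ha one_pos).measure_lt_top.ne]

theorem one_sub_pow {n : ℕ} (hn : 2 ≤ n) : 1 / 8 ≤ (1 - 1 / (n : ℝ)) ^ n := by
  have hn' : (2 : ℝ) ≤ n := by exact_mod_cast hn
  have h0 : 0 < (n : ℝ) := by linarith
  have h1 : 1 / (n : ℝ) ≤ 1 / 2 := one_div_le_one_div_of_le (by norm_num) hn'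
  set k := n / 2 with hk
  have hk2 : 2 * k ≤ n := by omega
  have hkn : n ≤ 2 * k + 1 := by omega
  have hk2' : 2 * (k : ℝ) ≤ n := by exact_mod_cast hk2
  have hkn' : (n : ℝ) ≤ 2 * k + 1 := by exact_mod_cast hkn
  have b1 : 1 - (k : ℝ) * (1 / n) ≤ (1 - 1 / (n : ℝ)) ^ k := by
    have := one_add_mul_le_pow (a := -(1 / (n : ℝ))) (by linarith) k
    calc 1 - (k : ℝ) * (1 / n) = 1 + (k : ℝ) * -(1 / n) := by ring
      _ ≤ _ := this
      _ = _ := by rw [sub_eq_add_neg]
  have b2 : 1 - ((n - k : ℕ) : ℝ) * (1 / n) ≤ (1 - 1 / (n : ℝ)) ^ (n - k) := by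
    have := one_add_mul_le_pow (a := -(1 / (n : ℝ))) (by linarith) (n - k)
    calc 1 - ((n - k : ℕ) : ℝ) * (1 / n) = 1 + ((n - k : ℕ) : ℝ) * -(1 / n) := by ring
      _ ≤ _ := this
      _ = _ := by rw [sub_eq_add_neg]
  have hnk : ((n - k : ℕ) : ℝ) = n - k := by
    rw [Nat.cast_sub (by omega)]
  rw [hnk] at b2
  have e1 : 1 - (k : ℝ) * (1 / n) = (n - k) / n := by field_simp
  have e2 : 1 - ((n : ℝ) - k) * (1 / n) = k / n := by field_simp; ring
  rw [e1] at b1
  rw [e2] at b2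
  have c1 : 1 / 2 ≤ ((n : ℝ) - k) / n := by
    rw [div_le_div_iff₀ (by norm_num) h0]; linarith
  have c2 : 1 / 4 ≤ (k : ℝ) / n := by
    rw [div_le_div_iff₀ (by norm_num) h0]
    have : 1 ≤ k := by omega
    have : (1 : ℝ) ≤ k := by exact_mod_cast this
    linarith
  calc (1 : ℝ) / 8 = 1 / 2 * (1 / 4) := by norm_num
    _ ≤ (1 - 1 / (n : ℝ)) ^ k * (1 - 1 / (n : ℝ)) ^ (n - k) :=
        mul_le_mul (c1.trans b1) (c2.trans b2) (by norm_num) (by
          exact pow_nonneg (by linarith) _)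
    _ = (1 - 1 / (n : ℝ)) ^ n := by rw [← pow_add, Nat.add_sub_cancel' (by omega)]

/-- The lower bound for one number of points. -/
theorem cone_lower {s : ℕ} {M : ℝ} (hM : 0 < M)
    (hb : ∀ k ≤ s, ∀ t ∈ Icc (0 : ℝ) 1, |deriv^[k] H0 t| ≤ M) {a R : ℝ} (ha : 0 < a)
    (hR : 0 < R) (hvol : R ^ (m + 1) * (volume (cone m a 1)).toReal = 1) {p q : ℝ≥0∞}
    (hp1 : 1 ≤ p) (hpt : p ≠ ∞) (hpq : p ≤ q) {n : ℕ} (hn : 2 ≤ n)
    (hnR : R ^ (m + 1) ≤ n) :
    ENNReal.ofReal (R ^ s / (8 * 2 ^ (m + 1) * M * (multiIdx (m + 1) s).card)) ≤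
      normErr Crit.ran (cone m a R) s p q n := by
  have hn' : (2 : ℝ) ≤ n := by exact_mod_cast hn
  have hn0 : (0 : ℝ) < n := by linarith
  have hp0 : p ≠ 0 := (zero_lt_one.trans_le hp1).ne'
  have hq1 : 1 ≤ q := hp1.trans hpq
  have hq0 : q ≠ 0 := (zero_lt_one.trans_le hq1).ne'
  set v := (volume (cone m a 1)).toReal with hv
  have hv0 : 0 < v := volume_cone_pos ha
  set N : ℝ := ((multiIdx (m + 1) s).card : ℝ) with hN
  have hN1 : 1 ≤ N := by
    have : 0 < (multiIdx (m + 1) s).card := Finset.card_pos.2 ⟨0, multiIdx_zero_mem _ _⟩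
    rw [hN]
    exact_mod_cast this
  have hN0 : 0 < N := by linarith
  set P := p.toReal with hP
  set Q := q.toReal with hQ
  have hP1 : 1 ≤ P := by
    rw [hP, ← ENNReal.toReal_one]
    exact ENNReal.toReal_mono hpt hp1
  have hP0 : 0 < P := by linarith
  -- facts on `q`
  have hQinv : 0 ≤ 1 / Q ∧ 1 / Q ≤ 1 / P := by
    by_cases hqt : q = ∞
    · have : Q = 0 := by rw [hQ, hqt]; simp
      rw [this]
      simp only [div_zero, le_refl, true_and]
      positivity
    · have h1 : P ≤ Q := ENNReal.toReal_mono hqt hpq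
      exact ⟨by positivity, one_div_le_one_div_of_le hP0 h1⟩
  have hQ1 : 1 / Q ≤ 1 := hQinv.2.trans (by rw [div_le_one hP0]; exact hP1)
  -- the scale
  set t : ℝ := (n : ℝ) ^ (-(1 / ((m + 1 : ℕ) : ℝ))) with ht
  have ht0 : 0 < t := Real.rpow_pos_of_pos hn0 _
  have hm0 : ((m + 1 : ℕ) : ℝ) ≠ 0 := by positivity
  have htm : t ^ (m + 1) = (n : ℝ)⁻¹ := by
    rw [ht, ← Real.rpow_natCast, ← Real.rpow_mul hn0.le, neg_mul, one_div_mul_cancel hm0,
      Real.rpow_neg_one]
  have hts : t ^ s = (n : ℝ) ^ (-((s : ℝ) / ((m + 1 : ℕ) : ℝ))) := by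
    rw [ht, ← Real.rpow_natCast, ← Real.rpow_mul hn0.le]
    congr 1
    ring
  set r : ℝ := R * t with hr
  have hr0 : 0 < r := mul_pos hR ht0
  have hrm : r ^ (m + 1) = R ^ (m + 1) / n := by
    rw [hr, mul_pow, htm]; rfl
  have ht1 : t ≤ 1 := by
    refine le_of_pow_le_pow_left₀ (n := m + 1) (by omega) (by norm_num) ?_
    rw [htm, one_pow]
    exact inv_le_one_of_one_le₀ (by linarith)
  have hrR : r ≤ R := by
    rw [hr]
    exact mul_le_of_le_one_right hR.le ht1
  have hr1 : r ≤ 1 := by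
    refine le_of_pow_le_pow_left₀ (n := m + 1) (by omega) (by norm_num) ?_
    rw [hrm, one_pow, div_le_one hn0]
    exact hnR
  have hvr : volume (cone m a r) = ENNReal.ofReal (1 / n) := by
    rw [volume_cone' ha hr0, hrm]
    congr 1
    rw [div_mul_eq_mul_div, hvol]
  have hvr2 : volume (cone m a (r / 2)) = ENNReal.ofReal (1 / (2 ^ (m + 1) * n)) := by
    rw [volume_cone' ha (by positivity), div_pow, hrm]
    congr 1
    rw [← hv]
    calc R ^ (m + 1) / n / 2 ^ (m + 1) * v = (R ^ (m + 1) * v) / (2 ^ (m + 1) * n) := by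
          field_simp
      _ = _ := by rw [hvol]
  -- the amplitude
  set c : ℝ := r ^ s * (n : ℝ) ^ (1 / P) / (M * N) with hc
  have hnP : 0 < (n : ℝ) ^ (1 / P) := Real.rpow_pos_of_pos hn0 _
  have hc0 : 0 < c := by positivity
  have hball : ofFst (bump c r) ∈ UnitBall (cone m a R) s p := by
    refine mem_ball hM hb ha hR hr0 hr1 hrR hc0.le hp1 hpt ?_
    have e1 : c * M * r⁻¹ ^ s = (n : ℝ) ^ (1 / P) / N := by
      rw [hc, inv_pow]
      field_simp
    have e3 : ((multiIdx (m + 1) s).card : ℝ≥0∞) = ENNReal.ofReal N := by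
      rw [hN, ENNReal.ofReal_natCast]
    rw [e1, hvr, e3, ← hP, ENNReal.ofReal_rpow_of_pos (by positivity),
      ← ENNReal.ofReal_mul (by positivity), ← ENNReal.ofReal_mul (by positivity)]
    rw [ENNReal.ofReal_le_one]
    rw [Real.div_rpow (by norm_num) hn0.le, Real.one_rpow]
    have : N * ((n : ℝ) ^ (1 / P) / N * (1 / (n : ℝ) ^ (1 / P))) = 1 := by
      field_simp
    exact this.le
  -- the fooling function
  have hadm : Admissible (cone m a R) := cone_admissible ha hR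
  have hD0 := hadm.volume_ne_zero
  have hDt := hadm.volume_ne_top
  have hCm : MeasurableSet {x : Fin (m + 1) → ℝ | x 0 < r} :=
    measurableSet_lt (measurable_pi_apply 0) measurable_const
  have hlow := lower_bound (n := n) hq1 hball hCm
    (fun x hx => by
      have hx' : r ≤ x 0 := not_lt.1 hx
      show c * H0 (r⁻¹ * x 0) = 0
      rw [H0_zero, mul_zero]
      have : 1 ≤ r⁻¹ * x 0 := by
        rw [le_inv_mul_iff₀ hr0]; linarith
      linarith)
    (ofFst_smooth (bump_smooth c r)).continuous.aestronglyMeasurable hD0 hDt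
  have hD1 : volume (cone m a R) = 1 := by
    rw [volume_cone' ha hR, hvol, ENNReal.ofReal_one]
  have hprob := isProb_unif hD0 hDt
  have hunif : unif (cone m a R) {x : Fin (m + 1) → ℝ | x 0 < r}ᶜ = ENNReal.ofReal (1 - 1 / n) := by
    rw [prob_compl_eq_one_sub hCm]
    have : unif (cone m a R) {x : Fin (m + 1) → ℝ | x 0 < r} = ENNReal.ofReal (1 / n) := by
      unfold unif
      rw [Measure.smul_apply, Measure.restrict_apply hCm, inter_comm, cone_inter hrR, hvr, hD1]
      simp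
    rw [this, ENNReal.ofReal_sub _ (by positivity), ENNReal.ofReal_one]
  have hpow : ENNReal.ofReal (1 / 8) ≤
      (unif (cone m a R) {x : Fin (m + 1) → ℝ | x 0 < r}ᶜ) ^ n := by
    have h1 : (0 : ℝ) ≤ 1 - 1 / n := by
      have : 1 / (n : ℝ) ≤ 1 / 2 := one_div_le_one_div_of_le (by norm_num) hn'
      linarith
    rw [hunif, ← ENNReal.ofReal_pow h1]
    exact ENNReal.ofReal_le_ofReal (one_sub_pow hn)
  have hnorm : ENNReal.ofReal (c * (1 / (2 ^ (m + 1) * n)) ^ (1 / Q)) ≤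
      eLpNorm (ofFst (bump c r)) q (volume.restrict (cone m a R)) := by
    have hr2 : 0 < r / 2 := by positivity
    have hsub : cone m a (r / 2) ⊆ cone m a R := fun x hx =>
      ⟨hx.1, hx.2.1.trans_le (by linarith), hx.2.2⟩
    have hμ : (volume.restrict (cone m a R)) (cone m a (r / 2)) = volume (cone m a (r / 2)) := by
      rw [Measure.restrict_apply (cone_open _ _).measurableSet, inter_eq_left.2 hsub]
    have h1 : eLpNorm ((cone m a (r / 2)).indicator (fun _ => c)) q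
        (volume.restrict (cone m a R)) ≤
        eLpNorm (ofFst (bump c r)) q (volume.restrict (cone m a R)) := by
      refine eLpNorm_mono fun x => ?_
      by_cases hx : x ∈ cone m a (r / 2)
      · rw [indicator_of_mem hx]
        show ‖c‖ ≤ ‖c * H0 (r⁻¹ * x 0)‖
        rw [H0_one, mul_one]
        rw [inv_mul_le_iff₀ hr0]
        linarith [hx.2.1]
      · rw [indicator_of_notMem hx]; simp
    refine le_trans (le_of_eq ?_) h1
    rw [eLpNorm_indicator_const' (cone_open a (r / 2)).measurableSet ?_ hq0, hμ, hvr2,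
      Real.enorm_eq_ofReal hc0.le, ENNReal.ofReal_rpow_of_pos (by positivity),
      ← ENNReal.ofReal_mul hc0.le]
    rw [hμ]
    exact ((cone_open a (r / 2)).measure_pos volume (cone_nonempty ha hr2)).ne'
  -- conclusion
  unfold normErr
  have hexpo : expo (m + 1) s p q = (s : ℝ) / ((m + 1 : ℕ) : ℝ) - (1 / P - 1 / Q) := by
    unfold expo
    rw [ENNReal.toReal_inv, ENNReal.toReal_inv, ← hP, ← hQ, max_eq_left, one_div, one_div]
    have := hQinv.2
    rw [one_div, one_div] at this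
    linarith
  calc ENNReal.ofReal (R ^ s / (8 * 2 ^ (m + 1) * M * N))
      ≤ ENNReal.ofReal ((1 / 8 * (c * (1 / (2 ^ (m + 1) * n)) ^ (1 / Q)))
          * (n : ℝ) ^ expo (m + 1) s p q) := by
        apply ENNReal.ofReal_le_ofReal
        have h2 : (1 / 2 ^ (m + 1) : ℝ) * (n : ℝ) ^ (-(1 / Q)) ≤
            (1 / (2 ^ (m + 1) * n) : ℝ) ^ (1 / Q) := by
          rw [one_div (2 ^ (m + 1) * (n : ℝ)), mul_inv, Real.mul_rpow (by positivity) (by positivity),
            Real.inv_rpow hn0.le, ← Real.rpow_neg hn0.le, one_div]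
          refine mul_le_mul_of_nonneg_right ?_ (by positivity)
          have h3 : ((2 : ℝ) ^ (m + 1))⁻¹ ≤ 1 := inv_le_one_of_one_le₀ (one_le_pow₀ (by norm_num))
          calc ((2 : ℝ) ^ (m + 1))⁻¹ = (((2 : ℝ) ^ (m + 1))⁻¹) ^ (1 : ℝ) := (Real.rpow_one _).symm
            _ ≤ _ := Real.rpow_le_rpow_of_exponent_ge (by positivity) h3 hQ1
        have h4 : (n : ℝ) ^ (-((s : ℝ) / ((m + 1 : ℕ) : ℝ))) * (n : ℝ) ^ (1 / P)
            * (n : ℝ) ^ (-(1 / Q)) * (n : ℝ) ^ expo (m + 1) s p q = 1 := by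
          rw [← Real.rpow_add hn0, ← Real.rpow_add hn0, ← Real.rpow_add hn0, hexpo]
          have : -((s : ℝ) / ((m + 1 : ℕ) : ℝ)) + 1 / P + -(1 / Q)
              + ((s : ℝ) / ((m + 1 : ℕ) : ℝ) - (1 / P - 1 / Q)) = 0 := by ring
          rw [this, Real.rpow_zero]
        calc R ^ s / (8 * 2 ^ (m + 1) * M * N)
            = (1 / 8 * (c * ((1 / 2 ^ (m + 1) : ℝ) * (n : ℝ) ^ (-(1 / Q)))))
                * (n : ℝ) ^ expo (m + 1) s p q := by
              rw [hc, hr, mul_pow, hts]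
              calc R ^ s / (8 * 2 ^ (m + 1) * M * N)
                  = R ^ s / (8 * 2 ^ (m + 1) * M * N) * 1 := (mul_one _).symm
                _ = R ^ s / (8 * 2 ^ (m + 1) * M * N) *
                    ((n : ℝ) ^ (-((s : ℝ) / ((m + 1 : ℕ) : ℝ))) * (n : ℝ) ^ (1 / P)
                      * (n : ℝ) ^ (-(1 / Q)) * (n : ℝ) ^ expo (m + 1) s p q) := by rw [h4]
                _ = _ := by
                    field_simp
          _ ≤ _ := by
              refine mul_le_mul_of_nonneg_right ?_ (by positivity)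
              refine mul_le_mul_of_nonneg_left ?_ (by norm_num)
              exact mul_le_mul_of_nonneg_left h2 hc0.le
    _ = ENNReal.ofReal (1 / 8) * ENNReal.ofReal (c * (1 / (2 ^ (m + 1) * n)) ^ (1 / Q))
          * ENNReal.ofReal ((n : ℝ) ^ expo (m + 1) s p q) := by
        rw [← ENNReal.ofReal_mul (by norm_num), ← ENNReal.ofReal_mul (by positivity)]
    _ ≤ minErr Crit.ran (cone m a R) s p q n
          * ENNReal.ofReal ((n : ℝ) ^ expo (m + 1) s p q) :=
        mul_le_mul' ((mul_le_mul' hpow hnorm).trans hlow) le_rfl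

theorem lower_all {d s : ℕ} {p q : ℝ≥0∞} (hd : 2 ≤ d) (hin : InScope d s p q Crit.ran)
    (hpq : p ≤ q) (M : ℝ≥0) :
    ∃ D : Set (Fin d → ℝ), Convex ℝ D ∧ Admissible D ∧ volume D = 1 ∧
      (M : ℝ≥0∞) ≤ liminf (normErr Crit.ran D s p q) atTop := by
  obtain ⟨m, rfl⟩ : ∃ m, d = m + 1 + 1 := ⟨d - 2, by omega⟩
  obtain ⟨-, hp1, hq1, hs, hpq'⟩ := hin
  have hpt : p ≠ ∞ := by
    rintro rfl
    exact hpq' ⟨rfl, top_le_iff.1 hpq⟩
  have hs1 : 1 ≤ s := by
    rcases hs with h | ⟨-, h⟩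
    · by_contra h0
      have : s = 0 := by omega
      subst this
      simp at h
    · omega
  obtain ⟨B, hB, hb⟩ := iter_bound s
  set N : ℝ := ((multiIdx (m + 1 + 1) s).card : ℝ) with hN
  have hN1 : 1 ≤ N := by
    have : 0 < (multiIdx (m + 1 + 1) s).card := Finset.card_pos.2 ⟨0, multiIdx_zero_mem _ _⟩
    rw [hN]
    exact_mod_cast this
  have hN0 : 0 < N := by linarith
  set E : ℝ := 8 * 2 ^ (m + 1 + 1) * B * N with hE
  have hE0 : 0 < E := by positivity
  set K : ℝ := max 1 (E * M) with hK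
  have hK1 : 1 ≤ K := le_max_left _ _
  set a : ℝ := (1 / K ^ (m + 1 + 1)) / 2 with ha'
  have hK0 : 0 < K := by linarith
  have ha : 0 < a := by positivity
  have h2a : 2 * a = 1 / K ^ (m + 1 + 1) := by rw [ha']; ring
  have h2a1 : 2 * a ≤ 1 := by
    rw [h2a, div_le_one (by positivity)]
    exact one_le_pow₀ hK1
  set v := (volume (cone (m + 1) a 1)).toReal with hv
  have hv0 : 0 < v := volume_cone_pos ha
  have hvle : v ≤ 2 * a := by
    rw [hv]
    exact ENNReal.toReal_le_of_le_ofReal (by positivity) (volume_cone_one_le ha h2a1)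
  set R : ℝ := (v⁻¹) ^ (((m + 1 + 1 : ℕ) : ℝ)⁻¹) with hR'
  have hR : 0 < R := Real.rpow_pos_of_pos (inv_pos.2 hv0) _
  have hRm : R ^ (m + 1 + 1) = v⁻¹ := by
    rw [hR', Real.rpow_inv_natCast_pow (inv_pos.2 hv0).le (by omega)]
  have hvol : R ^ (m + 1 + 1) * v = 1 := by
    rw [hRm, inv_mul_cancel₀ hv0.ne']
  have hRK : K ≤ R := by
    refine le_of_pow_le_pow_left₀ (n := m + 1 + 1) (by omega) hR.le ?_
    rw [hRm, le_inv_comm₀ (by positivity) hv0]
    rw [← one_div, ← h2a]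
    exact hvle
  refine ⟨cone (m + 1) a R, cone_convex _ _, cone_admissible ha hR, ?_, ?_⟩
  · rw [volume_cone' ha hR, hvol, ENNReal.ofReal_one]
  · refine le_liminf_of_le (by isBoundedDefault) ?_
    filter_upwards [eventually_ge_atTop 2, eventually_ge_atTop (⌈R ^ (m + 1 + 1)⌉₊)] with n hn hn2
    refine le_trans ?_ (cone_lower hB hb ha hR hvol hp1 hpt hpq hn (Nat.ceil_le.1 hn2))
    rw [← ENNReal.ofReal_coe_nnreal]
    apply ENNReal.ofReal_le_ofReal
    rw [← hN, ← hE, le_div_iff₀ hE0]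
    calc (M : ℝ) * E = E * M := mul_comm _ _
      _ ≤ K := le_max_right _ _
      _ ≤ R := hRK
      _ ≤ R ^ s := le_self_pow₀ (hK1.trans hRK) (by omega)

end Pool.Agent.Lib.MP_961271_an.SH
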