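import Pool.Agent.Lib.MP_961271_an.Q2

/-!
Smooth functions of the first coordinate: weak derivatives of all orders, in every dimension.
-/

open MeasureTheory Set Filter Topology
open scoped ENNReal

namespace Pool.Agent.Lib.MP_961271_an.SH

open Pool.Agent.Lib.MP_961271_an

variable {m : ℕ}

/-- A smooth function of the first coordinate. -/
def ofFst (H : ℝ → ℝ) : (Fin (m + 1) → ℝ) → ℝ := fun x => H (x 0)

theorem ofFst_smooth {H : ℝ → ℝ} (hH : ContDiff ℝ ((⊤ : ℕ∞) : WithTop ℕ∞) H) :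
    ContDiff ℝ ((⊤ : ℕ∞) : WithTop ℕ∞) (ofFst (m := m) H) := by
  unfold ofFst
  exact hH.comp (contDiff_apply ℝ ℝ 0)

theorem pderiv_ofFst {H : ℝ → ℝ} (hH : ContDiff ℝ ((⊤ : ℕ∞) : WithTop ℕ∞) H) :
    pderiv 0 (ofFst (m := m) H) = ofFst (deriv H) := by
  funext x
  have h1 : HasFDerivAt (fun x : Fin (m + 1) → ℝ => x 0)
      (ContinuousLinearMap.proj (R := ℝ) (φ := fun _ : Fin (m + 1) => ℝ) 0) x :=
    hasFDerivAt_apply 0 x
  have h2 : HasDerivAt H (deriv H (x 0)) (x 0) := ((hH.differentiable (by simp)) _).hasDerivAt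
  have h3 := h2.hasFDerivAt.comp x h1
  have h4 : fderiv ℝ (ofFst (m := m) H) x = _ := h3.fderiv
  unfold pderiv ofFst
  unfold ofFst at h4
  rw [h4]
  simp

theorem pderiv_ofFst_succ {H : ℝ → ℝ} (hH : ContDiff ℝ ((⊤ : ℕ∞) : WithTop ℕ∞) H) (i : Fin m) :
    pderiv i.succ (ofFst (m := m) H) = fun _ => 0 := by
  funext x
  have h1 : HasFDerivAt (fun x : Fin (m + 1) → ℝ => x 0)
      (ContinuousLinearMap.proj (R := ℝ) (φ := fun _ : Fin (m + 1) => ℝ) 0) x :=
    hasFDerivAt_apply 0 x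
  have h2 : HasDerivAt H (deriv H (x 0)) (x 0) := ((hH.differentiable (by simp)) _).hasDerivAt
  have h3 := h2.hasFDerivAt.comp x h1
  have h4 : fderiv ℝ (ofFst (m := m) H) x = _ := h3.fderiv
  unfold pderiv ofFst
  unfold ofFst at h4
  rw [h4]
  simp [Fin.succ_ne_zero]

theorem iterate_isTest {d : ℕ} {D : Set (Fin d → ℝ)} {φ : (Fin d → ℝ) → ℝ} (hφ : IsTest D φ)
    (i : Fin d) (k : ℕ) : IsTest D ((pderiv i)^[k] φ) := by
  induction k with
  | zero => exact hφ
  | succ k ih => rw [Function.iterate_succ_apply']; exact pderiv_isTest ih i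

theorem foldr_isTest {d : ℕ} {D : Set (Fin d → ℝ)} {φ : (Fin d → ℝ) → ℝ} (hφ : IsTest D φ)
    (α : Fin d → ℕ) (l : List (Fin d)) :
    IsTest D (l.foldr (fun i ψ => (pderiv i)^[α i] ψ) φ) := by
  induction l with
  | nil => exact hφ
  | cons i l ih => exact iterate_isTest ih i _

theorem iter_deriv_smooth {H : ℝ → ℝ} (hH : ContDiff ℝ ((⊤ : ℕ∞) : WithTop ℕ∞) H) (k : ℕ) :
    ContDiff ℝ ((⊤ : ℕ∞) : WithTop ℕ∞) (deriv^[k] H) := by
  induction k with
  | zero => exact hH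
  | succ k ih => rw [Function.iterate_succ_apply']; exact smooth_deriv ih

theorem int_iter {D : Set (Fin (m + 1) → ℝ)} {H : ℝ → ℝ}
    (hH : ContDiff ℝ ((⊤ : ℕ∞) : WithTop ℕ∞) H) {φ : (Fin (m + 1) → ℝ) → ℝ} (hφ : IsTest D φ)
    (k : ℕ) :
    ∫ x in D, ofFst H x * (pderiv 0)^[k] φ x = (-1) ^ k * ∫ x in D, ofFst (deriv^[k] H) x * φ x := by
  induction k generalizing φ with
  | zero => simp
  | succ k ih =>
    rw [Function.iterate_succ_apply, ih (pderiv_isTest hφ 0),
      smooth_weak1 (ofFst_smooth (iter_deriv_smooth hH k)) hφ 0,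
      pderiv_ofFst (iter_deriv_smooth hH k), Function.iterate_succ_apply']
    ring

theorem int_list {D : Set (Fin (m + 1) → ℝ)} {H : ℝ → ℝ}
    (hH : ContDiff ℝ ((⊤ : ℕ∞) : WithTop ℕ∞) H) {φ : (Fin (m + 1) → ℝ) → ℝ} (hφ : IsTest D φ)
    (α : Fin (m + 1) → ℕ) (l : List (Fin m)) (hl : ∃ i ∈ l, α i.succ ≠ 0) :
    ∫ x in D, ofFst H x * (l.map Fin.succ).foldr (fun i ψ => (pderiv i)^[α i] ψ) φ x = 0 := by
  induction l with
  | nil => obtain ⟨i, hi, -⟩ := hl; simp at hi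
  | cons i l ih =>
    rw [List.map_cons, List.foldr_cons]
    by_cases h : α i.succ = 0
    · rw [h, Function.iterate_zero, id]
      apply ih
      obtain ⟨j, hj, hj0⟩ := hl
      rcases List.mem_cons.1 hj with rfl | hj
      · exact absurd h hj0
      · exact ⟨j, hj, hj0⟩
    · obtain ⟨k, hk⟩ := Nat.exists_eq_succ_of_ne_zero h
      rw [hk, Function.iterate_succ_apply',
        smooth_weak1 (ofFst_smooth hH) (iterate_isTest (foldr_isTest hφ α _) _ _) i.succ,
        pderiv_ofFst_succ hH]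
      simp

/-- The weak derivatives of a smooth function of the first coordinate. -/
noncomputable def gFst (H : ℝ → ℝ) (α : Fin (m + 1) → ℕ) : (Fin (m + 1) → ℝ) → ℝ :=
  open Classical in
  if ∀ i : Fin m, α i.succ = 0 then ofFst (deriv^[α 0] H) else fun _ => 0

theorem gFst_zero (H : ℝ → ℝ) : gFst (m := m) H 0 = ofFst H := by
  unfold gFst
  rw [if_pos (by simp)]
  rfl

theorem isWeakDeriv_gFst {D : Set (Fin (m + 1) → ℝ)} {H : ℝ → ℝ}
    (hH : ContDiff ℝ ((⊤ : ℕ∞) : WithTop ℕ∞) H) (α : Fin (m + 1) → ℕ) :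
    IsWeakDeriv D α (ofFst H) (gFst H α) := by
  intro φ hφ
  have e1 : mderiv α φ = (pderiv 0)^[α 0]
      (((List.finRange m).map Fin.succ).foldr (fun i ψ => (pderiv i)^[α i] ψ) φ) := by
    unfold mderiv
    rw [List.finRange_succ, List.foldr_cons]
  rw [e1, int_iter hH (foldr_isTest hφ α _)]
  unfold gFst
  by_cases h : ∀ i : Fin m, α i.succ = 0
  · rw [if_pos h, Fin.sum_univ_succ, Finset.sum_eq_zero fun i _ => h i, add_zero]
    congr 2
    funext x
    congr 2
    have : ∀ l : List (Fin m), (l.map Fin.succ).foldr (fun i ψ => (pderiv i)^[α i] ψ) φ = φ := by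
      intro l
      induction l with
      | nil => rfl
      | cons i l ih => rw [List.map_cons, List.foldr_cons, ih, h i, Function.iterate_zero, id]
    exact congrFun (this _) x
  · rw [if_neg h]
    push Not at h
    obtain ⟨i, hi⟩ := h
    rw [int_list (iter_deriv_smooth hH _) hφ α _ ⟨i, List.mem_finRange i, hi⟩]
    simp

end Pool.Agent.Lib.MP_961271_an.SH
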